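import Pool.Agent.helper60.XP.SpecT

/-!
# xp: module INVG (inverse of a map near the identity)
-/

set_option autoImplicit false

open Complex Metric Set Filter Topology MeasureTheory
open V3S (UF)
open XP

noncomputable section

namespace XPT

/-- `G` is injective on `ball x₀ r` if `‖G' - 1‖ ≤ 1/2`, with a holomorphic inverse on the image, which contains
`closedBall (G x₀) (s/2)` for `s < r`. -/
theorem INVG_aux (G : ℂ → ℂ) (x₀ : ℂ) (r : ℝ) (hd : DifferentiableOn ℂ G (ball x₀ r)) (c : NNReal)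
    (hc : (c : ℝ) < 1) (hb : ∀ y ∈ ball x₀ r, ‖deriv G y - 1‖ ≤ c) :
    ∃ Ψ : ℂ → ℂ, DifferentiableOn ℂ Ψ (G '' ball x₀ r) ∧ (∀ y ∈ ball x₀ r, Ψ (G y) = y) ∧
      ∀ s : ℝ, 0 ≤ s → s < r → closedBall (G x₀) ((1 - c) * s) ⊆ G '' closedBall x₀ s := by
  have hdd : ∀ y ∈ ball x₀ r, DifferentiableAt ℂ G y := fun y hy =>
    (hd y hy).differentiableAt (isOpen_ball.mem_nhds hy)
  have hlip : ∀ x ∈ ball x₀ r, ∀ y ∈ ball x₀ r, ‖(G x - x) - (G y - y)‖ ≤ c * ‖x - y‖ := by
    intro x hx y hy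
    refine Convex.norm_image_sub_le_of_norm_hasDerivWithin_le (f := fun z => G z - z)
      (f' := fun z => deriv G z - 1) (s := ball x₀ r) ?_ hb (convex_ball x₀ r) hy hx
    intro z hz
    exact ((hdd z hz).hasDerivAt.sub (hasDerivAt_id z)).hasDerivWithinAt
  have hN : ‖((ContinuousLinearEquiv.refl ℂ ℂ).symm : ℂ →L[ℂ] ℂ)‖₊ = 1 := by
    have : ((ContinuousLinearEquiv.refl ℂ ℂ).symm : ℂ →L[ℂ] ℂ) = ContinuousLinearMap.id ℂ ℂ := rfl
    rw [this]
    exact (nnnorm_one : ‖(1 : ℂ →L[ℂ] ℂ)‖₊ = 1)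
  have hA : ApproximatesLinearOn G ((ContinuousLinearEquiv.refl ℂ ℂ : ℂ ≃L[ℂ] ℂ) : ℂ →L[ℂ] ℂ)
      (ball x₀ r) c := by
    intro x hx y hy
    have h1 := hlip x hx y hy
    have h2 : G x - G y - ((ContinuousLinearEquiv.refl ℂ ℂ : ℂ ≃L[ℂ] ℂ) : ℂ →L[ℂ] ℂ) (x - y) =
        (G x - x) - (G y - y) := by
      change G x - G y - (x - y) = _
      ring
    rw [h2]
    exact h1
  have hcc : Subsingleton ℂ ∨ c < ‖((ContinuousLinearEquiv.refl ℂ ℂ).symm : ℂ →L[ℂ] ℂ)‖₊⁻¹ := by
    right
    rw [hN, inv_one]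
    exact_mod_cast hc
  let e := hA.toOpenPartialHomeomorph G (ball x₀ r) hcc isOpen_ball
  have he1 : ∀ y ∈ ball x₀ r, e.symm (G y) = y := fun y hy => e.left_inv hy
  refine ⟨e.symm, ?_, he1, ?_⟩
  · rintro x ⟨y, hy, rfl⟩
    have hne : deriv G y ≠ 0 := by
      intro h
      have := hb y hy
      rw [h, zero_sub, norm_neg, norm_one] at this
      linarith
    have h1 : HasDerivAt e (deriv G y) (e.symm (G y)) := by
      rw [he1 y hy]
      exact (hdd y hy).hasDerivAt
    exact (e.hasDerivAt_symm (mem_image_of_mem G hy) hne h1).differentiableAt.differentiableWithinAt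
  · intro s hs hsr
    have h1 := hA.surjOn_closedBall_of_nonlinearRightInverse
      (ContinuousLinearEquiv.refl ℂ ℂ).toNonlinearRightInverse hs (closedBall_subset_ball hsr)
    have h2 : ((ContinuousLinearEquiv.refl ℂ ℂ).toNonlinearRightInverse.nnnorm : ℝ)⁻¹ = 1 := by
      change ((‖((ContinuousLinearEquiv.refl ℂ ℂ).symm : ℂ →L[ℂ] ℂ)‖₊ : NNReal) : ℝ)⁻¹ = 1
      rw [hN]
      simp
    rw [h2] at h1
    exact h1

theorem INVG : INVG_stmt := by
  intro G hG hb
  have h0 : G 0 = 0 := by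
    have := hb 0 (mem_ball_self one_pos)
    rw [norm_zero, zero_div, sub_zero] at this
    exact norm_le_zero_iff.1 this
  have hd : ∀ y ∈ ball (0 : ℂ) (3 / 5), ‖deriv G y - 1‖ ≤ ((1 / 20 : NNReal) : ℝ) := by
    intro y hy
    rw [mem_ball_zero_iff] at hy
    have hsub : closedBall y (2 / 5) ⊆ ball (0 : ℂ) 1 := by
      intro z hz
      rw [mem_closedBall, dist_eq_norm] at hz
      rw [mem_ball_zero_iff]
      have := norm_add_le (z - y) y
      rw [sub_add_cancel] at this
      linarith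
    have hyy : y ∈ ball (0 : ℂ) 1 := hsub (mem_closedBall_self (by norm_num))
    have h1 : ‖deriv (fun z => G z - z) y‖ ≤ (1 / 50) / (2 / 5) := by
      refine Complex.norm_deriv_le_of_forall_mem_sphere_norm_le (by norm_num) ?_ ?_
      · refine DifferentiableOn.diffContOnCl ?_
        rw [closure_ball y (by norm_num)]
        exact (hG.sub differentiableOn_id).mono hsub
      · intro z hz
        have hz1 := hsub (sphere_subset_closedBall hz)
        have h2 := hb z hz1
        rw [mem_ball_zero_iff] at hz1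
        linarith
    have h2 : deriv (fun z => G z - z) y = deriv G y - 1 :=
      (((hG y hyy).differentiableAt (isOpen_ball.mem_nhds hyy)).hasDerivAt.sub
        (hasDerivAt_id y)).deriv
    rw [h2] at h1
    refine h1.trans (le_of_eq ?_)
    push_cast
    norm_num
  obtain ⟨Ψ, hΨd, hΨ, hsur⟩ := INVG_aux G 0 (3 / 5) (hG.mono (ball_subset_ball (by norm_num)))
    (1 / 20) (by push_cast; norm_num) hd
  have hex : ∀ x ∈ ball (0 : ℂ) (1 / 2), ∃ y ∈ closedBall (0 : ℂ) (11 / 20), G y = x := by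
    intro x hx
    rw [mem_ball_zero_iff] at hx
    have := hsur (11 / 20) (by norm_num) (by norm_num)
    rw [h0] at this
    refine this ?_
    rw [mem_closedBall_zero_iff]
    push_cast
    linarith
  refine ⟨Ψ, ?_, ?_, ?_⟩
  · refine hΨd.mono fun x hx => ?_
    obtain ⟨y, hy, rfl⟩ := hex x hx
    exact mem_image_of_mem G (closedBall_subset_ball (by norm_num) hy)
  · have := hΨ 0 (mem_ball_self (by norm_num))
    rwa [h0] at this
  · intro x hx
    obtain ⟨y, hy, rfl⟩ := hex x hx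
    have hy2 : y ∈ ball (0 : ℂ) 1 := closedBall_subset_ball (by norm_num) hy
    rw [hΨ y (closedBall_subset_ball (by norm_num) hy)]
    refine ⟨hy2, rfl, ?_⟩
    have h1 := hb y hy2
    have h2 := norm_sub_norm_le y (G y)
    rw [norm_sub_rev y (G y)] at *
    linarith [norm_nonneg y]

end XPT
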