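import Pool.Agent.helper60.XP.SpecD

set_option autoImplicit false

open Complex Metric Set Filter Topology MeasureTheory

noncomputable section

namespace XPD

theorem SCL : SCL_stmt := by
  intro Q η hη h0 h1 hdeg
  set S := Q.divX with hS
  have hQ : ∀ x : ℂ, Q.eval x = x * S.eval x := by
    intro x
    have h := Polynomial.divX_mul_X_add Q
    have hc : Q.coeff 0 = 0 := by
      rw [Polynomial.coeff_zero_eq_eval_zero, h0]
    rw [hc, Polynomial.C_0, add_zero] at h
    conv_lhs => rw [← h]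
    rw [Polynomial.eval_mul, Polynomial.eval_X, mul_comm]
  have hS0 : ‖S.eval 0‖ < η := by
    have e : S.eval 0 = Q.derivative.eval 0 := by
      rw [← Polynomial.coeff_zero_eq_eval_zero, ← Polynomial.coeff_zero_eq_eval_zero, hS,
        Polynomial.coeff_divX, Polynomial.coeff_derivative]
      simp
    rw [e]
    exact h1
  have hSdeg : 0 < S.degree := by
    rw [← Polynomial.natDegree_pos_iff_degree_pos, hS,
      Polynomial.natDegree_divX_eq_natDegree_tsub_one]
    omega
  have hcont : Continuous fun x : ℂ => ‖S.eval x‖ := S.continuous.norm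
  have htend : Tendsto (fun t : ℝ => ‖S.eval ((t : ℂ))‖) atTop atTop := by
    refine Polynomial.tendsto_norm_atTop S hSdeg ?_
    refine Filter.tendsto_atTop_mono (fun t => ?_) tendsto_id
    rw [Complex.norm_real]
    exact le_abs_self t
  have hTc : IsClosed {x : ℂ | η ≤ ‖S.eval x‖} := isClosed_le continuous_const hcont
  have hTn : {x : ℂ | η ≤ ‖S.eval x‖}.Nonempty := by
    obtain ⟨t, ht⟩ := (htend.eventually_ge_atTop η).exists
    exact ⟨(t : ℂ), ht⟩
  obtain ⟨x₀, hx₀, hd⟩ := hTc.exists_infDist_eq_dist hTn (0 : ℂ)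
  have hR : ∀ x : ℂ, ‖x‖ < ‖x₀‖ → ‖S.eval x‖ < η := by
    intro x hx
    by_contra hcon
    have hxT : x ∈ {x : ℂ | η ≤ ‖S.eval x‖} := not_lt.1 hcon
    have h2 := Metric.infDist_le_dist_of_mem (x := (0 : ℂ)) hxT
    rw [hd, dist_comm, dist_zero_right, dist_comm, dist_zero_right] at h2
    linarith
  have hx0 : 0 < ‖x₀‖ := by
    rw [norm_pos_iff]
    intro h
    rw [h] at hx₀
    exact absurd hS0 (not_lt.2 hx₀)
  have hle : ‖S.eval x₀‖ ≤ η := by
    have hcl : IsClosed {x : ℂ | ‖S.eval x‖ ≤ η} := isClosed_le hcont continuous_const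
    have hsub : ball (0 : ℂ) ‖x₀‖ ⊆ {x : ℂ | ‖S.eval x‖ ≤ η} := by
      intro x hx
      rw [mem_ball_zero_iff] at hx
      exact (hR x hx).le
    have h3 := closure_minimal hsub hcl
    rw [closure_ball (0 : ℂ) hx0.ne'] at h3
    exact h3 (by rw [mem_closedBall_zero_iff])
  refine ⟨‖x₀‖, hx0, ?_, x₀, rfl, ?_⟩
  · intro x hx
    rw [mem_ball_zero_iff] at hx
    rw [hQ x, norm_mul, mul_comm]
    exact mul_le_mul_of_nonneg_right (hR x hx).le (norm_nonneg _)
  · rw [hQ x₀, norm_mul, mul_comm]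
    have : ‖S.eval x₀‖ = η := le_antisymm hle hx₀
    rw [this]

end XPD
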