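import Pool.Agent.helper54.XP.SpecG

/-!
# Project xp: module GAL: the limit maps `α_p`
-/

set_option autoImplicit false

open Complex Metric Set Filter Topology MeasureTheory XP
open V3S (UF)

noncomputable section

namespace XPG

/-- mean value inequality on a disc. -/
theorem GAL_mv {H : ℂ → ℂ} {b : ℂ} {ρ δ : ℝ} (hH : Differentiable ℂ H)
    (hd : ∀ x ∈ ball (0 : ℂ) ρ, ‖deriv H x - b‖ ≤ δ) {x y : ℂ} (hx : x ∈ ball (0 : ℂ) ρ)
    (hy : y ∈ ball (0 : ℂ) ρ) : ‖H x - H y - b * (x - y)‖ ≤ δ * ‖x - y‖ := by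
  have h1 : ∀ z ∈ ball (0 : ℂ) ρ,
      HasDerivWithinAt (fun z => H z - b * z) (deriv H z - b) (ball 0 ρ) z := by
    intro z _
    have h2 : HasDerivAt H (deriv H z) z := (hH z).hasDerivAt
    have h3 : HasDerivAt (fun z => b * z) b z := by
      have := (hasDerivAt_id z).const_mul b
      rw [mul_one] at this
      exact this
    exact (h2.sub h3).hasDerivWithinAt
  have h4 := Convex.norm_image_sub_le_of_norm_hasDerivWithin_le h1 hd (convex_ball 0 ρ) hy hx
  have h5 : H x - b * x - (H y - b * y) = H x - H y - b * (x - y) := by ring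
  rw [← h5]
  exact h4

theorem GAL_tend {u : ℕ → ℂ} {z : ℂ} (h : ∀ ε > (0 : ℝ), ∀ᶠ m in UF, ‖u m - z‖ ≤ ε) :
    Tendsto u UF (𝓝 z) := by
  rw [Metric.tendsto_nhds]
  intro ε hε
  filter_upwards [h (ε / 2) (half_pos hε)] with m hm
  rw [dist_eq_norm]
  linarith

theorem GAL_ev {u : ℕ → ℂ} {z : ℂ} (h : Tendsto u UF (𝓝 z)) {ε : ℝ} (hε : 0 < ε) :
    ∀ᶠ m in UF, ‖u m - z‖ ≤ ε := by
  filter_upwards [(Metric.tendsto_nhds.1 h) ε hε] with m hm
  rw [dist_eq_norm] at hm
  exact hm.le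

theorem GAL_bd {u : ℕ → ℂ} {z : ℂ} (h : Tendsto u UF (𝓝 z)) : ∀ᶠ m in UF, ‖u m‖ ≤ ‖z‖ + 1 := by
  filter_upwards [GAL_ev h one_pos] with m hm
  have h1 : ‖u m‖ ≤ ‖u m - z‖ + ‖z‖ := by
    have := norm_add_le (u m - z) z
    rwa [sub_add_cancel] at this
  linarith

/-- uniform convergence of the iterates to the affine map. -/
theorem GAL_unif {C : ℝ} {D : ℕ → Dat} (hL : LA C D) (hF : ∀ m j, Differentiable ℂ ((D m).F j))
    {j : ℕ → ℕ} (hj : ∀ᶠ m in UF, j m ≤ (D m).k) {p a : ℂ}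
    (T1 : Tendsto (fun m => (D m).F (j m) 0) UF (𝓝 p))
    (T2 : Tendsto (fun m => (D m).A (j m)) UF (𝓝 a)) {ρ ε : ℝ} (hρ : 0 < ρ) (hε : 0 < ε) :
    ∀ᶠ m in UF, ∀ x ∈ ball (0 : ℂ) ρ, ‖(D m).F (j m) x - (p + a * x)‖ ≤ ε ∧
      ‖deriv ((D m).F (j m)) x - a‖ ≤ ε := by
  have hM : 0 < ‖a‖ + 1 := by positivity
  obtain ⟨e, he, he3⟩ : ∃ e : ℝ, 0 < e ∧ 3 * e * (ρ + 1) = ε := by
    refine ⟨ε / (3 * (ρ + 1)), by positivity, ?_⟩
    field_simp
  have hae := hL.aff ρ hρ (e / (‖a‖ + 1)) (by positivity)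
  filter_upwards [hj, GAL_ev T1 he, GAL_ev T2 he, GAL_bd T2, hae] with m h1 h2 h3 h4 h5
  intro x hx
  have hxρ : ‖x‖ < ρ := by rwa [mem_ball_zero_iff] at hx
  have h6 : ∀ y ∈ ball (0 : ℂ) ρ, ‖deriv ((D m).F (j m)) y - (D m).A (j m)‖ ≤ e := by
    intro y hy
    refine (h5 (j m) h1 y hy).trans ?_
    rw [div_mul_eq_mul_div, div_le_iff₀ hM]
    exact mul_le_mul_of_nonneg_left h4 he.le
  have h7 := GAL_mv (hF m (j m)) h6 hx (mem_ball_self hρ)
  rw [sub_zero] at h7
  have he' : 0 ≤ e * ρ := by positivity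
  constructor
  · have h8 : (D m).F (j m) x - (p + a * x) = ((D m).F (j m) x - (D m).F (j m) 0 -
        (D m).A (j m) * x) + (((D m).F (j m) 0 - p) + ((D m).A (j m) - a) * x) := by ring
    rw [h8]
    have h9 : ‖((D m).A (j m) - a) * x‖ ≤ e * ‖x‖ := by
      rw [norm_mul]
      exact mul_le_mul_of_nonneg_right h3 (norm_nonneg _)
    have h10 : e * ‖x‖ ≤ e * ρ := mul_le_mul_of_nonneg_left hxρ.le he.le
    have h11 := norm_add_le ((D m).F (j m) x - (D m).F (j m) 0 - (D m).A (j m) * x)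
      (((D m).F (j m) 0 - p) + ((D m).A (j m) - a) * x)
    have h12 := norm_add_le ((D m).F (j m) 0 - p) (((D m).A (j m) - a) * x)
    nlinarith
  · have h8 : deriv ((D m).F (j m)) x - a = (deriv ((D m).F (j m)) x - (D m).A (j m)) +
        ((D m).A (j m) - a) := by ring
    rw [h8]
    have h9 := norm_add_le (deriv ((D m).F (j m)) x - (D m).A (j m)) ((D m).A (j m) - a)
    have h10 := h6 x hx
    nlinarith

/-- lower bound of the limits. -/
theorem GAL_low {C : ℝ} {D : ℕ → Dat} (hL : LA C D) {j : ℕ → ℕ} (hj : ∀ᶠ m in UF, j m ≤ (D m).k)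
    {a : ℂ} (T2 : Tendsto (fun m => (D m).A (j m)) UF (𝓝 a)) : 1 / C ≤ ‖a‖ := by
  refine ge_of_tendsto T2.norm ?_
  filter_upwards [hj, hL.low] with m h1 h2
  exact h2 (j m) h1

/-- the main step for one sequence of labels. -/
theorem GAL_core {n : ℕ} {C C' C'' : ℝ} {D : ℕ → Dat} (hD : HG n C C' C'' D) (hL : LA C D)
    (hGBA : GBA_stmt) (hGFK : GFK_stmt) (hTUL : V3.TUL_stmt) {l : ∀ m, ZMod (D m).k} {p : ℂ}
    (hl : LabTo D l p) : ∃ a : ℂ, 1 / C ≤ ‖a‖ ∧ Tendsto (fun m => (D m).A (l m).val) UF (𝓝 a) ∧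
      LabTo D (fun m => -(l m)) (-p / a) ∧
      Tendsto (fun m => (D m).A (-(l m)).val) UF (𝓝 (1 / a)) := by
  have hcomp : ∀ m i j x, (D m).F (i + j) x = (D m).F i ((D m).F j x) :=
    fun m => (hGBA n C (D m) (hD.ok m)).2.2.2.1
  have hFp : ∀ m (j : ℕ) (q : ZMod (D m).k), (D m).F j ((D m).p q) = (D m).p (q + j) :=
    fun m => (hGBA n C (D m) (hD.ok m)).2.2.2.2.2.1
  have hp0 : ∀ m, (D m).p 0 = 0 := fun m => (hGBA n C (D m) (hD.ok m)).2.2.2.2.2.2.1
  have hpoly : ∀ m (j : ℕ), ∃ Q : Polynomial ℂ, ∀ x, (D m).F j x = Q.eval x :=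
    fun m => (hGBA n C (D m) (hD.ok m)).2.2.2.2.2.2.2.1
  have hA0 : ∀ m, (D m).A 0 = 1 :=
    fun m => (hGBA n C (D m) (hD.ok m)).2.2.2.2.2.2.2.2.2.2.2.2.2.1
  have hchain : ∀ m i j x, deriv ((D m).F (i + j)) x =
      deriv ((D m).F i) ((D m).F j x) * deriv ((D m).F j) x :=
    fun m => (hGBA n C (D m) (hD.ok m)).2.2.2.2.2.2.2.2.2.2.2.2.2.2.1
  have hF : ∀ m j, Differentiable ℂ ((D m).F j) := by
    intro m j
    obtain ⟨Q, hQ⟩ := hpoly m j
    have h1 : (D m).F j = fun x => Q.eval x := funext hQ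
    rw [h1]
    exact Q.differentiable
  have hval : ∀ m (q : ZMod (D m).k), (D m).F q.val 0 = (D m).p q := by
    intro m q
    have h1 := hFp m q.val 0
    rw [hp0, zero_add, ZMod.natCast_zmod_val] at h1
    exact h1
  have hle : ∀ m (q : ZMod (D m).k), q.val ≤ (D m).k := fun m q => (ZMod.val_lt q).le
  have T1 : Tendsto (fun m => (D m).F (l m).val 0) UF (𝓝 p) := by
    have h1 : (fun m => (D m).F (l m).val 0) = fun m => (D m).p (l m) := by
      funext m
      exact hval m (l m)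
    rw [h1]
    exact hl
  have hC := hL.bA
  have hbd : ∀ᶠ m in UF, ‖(D m).A (l m).val‖ ≤ 1 + |C| * (‖p‖ + 1) := by
    filter_upwards [hC, GAL_bd T1] with m h1 h2
    rcases Nat.eq_zero_or_pos (l m).val with h0 | h0
    · rw [h0, hA0, norm_one]
      have : 0 ≤ |C| * (‖p‖ + 1) := by positivity
      linarith
    · have h3 := h1 (l m).val h0 (ZMod.val_lt (l m))
      have h4 : C * ‖(D m).F (l m).val 0‖ ≤ |C| * (‖p‖ + 1) :=
        mul_le_mul (le_abs_self C) h2 (norm_nonneg _) (abs_nonneg C)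
      linarith
  obtain ⟨a, -, ha⟩ := hTUL (hyperfilter ℕ) (fun m => (D m).A (l m).val) _ hbd
  have T2 : Tendsto (fun m => (D m).A (l m).val) UF (𝓝 a) := ha
  have hale : 1 / C ≤ ‖a‖ := GAL_low hL (Eventually.of_forall fun m => hle m (l m)) T2
  have hC0 : 0 < 1 / C := one_div_pos.2 (lt_of_lt_of_le one_pos hL.C1)
  have ha0 : a ≠ 0 := by
    intro h
    rw [h, norm_zero] at hale
    linarith
  rcases V3S.UF_em (fun m => l m = 0) with hz | hnz
  · -- the labels are zero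
    have hpz : p = 0 := by
      have h1 : Tendsto (fun m => (D m).p (l m)) UF (𝓝 0) := by
        refine Tendsto.congr' ?_ (tendsto_const_nhds (x := (0 : ℂ)))
        filter_upwards [hz] with m hm
        rw [hm, hp0]
      exact tendsto_nhds_unique hl h1
    have haz : a = 1 := by
      have h1 : Tendsto (fun m => (D m).A (l m).val) UF (𝓝 1) := by
        refine Tendsto.congr' ?_ (tendsto_const_nhds (x := (1 : ℂ)))
        filter_upwards [hz] with m hm
        rw [hm, ZMod.val_zero, hA0]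
      exact tendsto_nhds_unique T2 h1
    refine ⟨a, hale, T2, ?_, ?_⟩
    · show Tendsto (fun m => (D m).p (-(l m))) UF (𝓝 (-p / a))
      rw [hpz, neg_zero, zero_div]
      refine Tendsto.congr' ?_ (tendsto_const_nhds (x := (0 : ℂ)))
      filter_upwards [hz] with m hm
      rw [hm, neg_zero, hp0]
    · rw [haz, div_one]
      refine Tendsto.congr' ?_ (tendsto_const_nhds (x := (1 : ℂ)))
      filter_upwards [hz] with m hm
      rw [hm, neg_zero, ZMod.val_zero, hA0]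
  · -- the labels are not zero
    have hsum : ∀ᶠ m in UF, (-(l m)).val + (l m).val = (D m).k := by
      filter_upwards [hnz] with m hm
      rw [ZMod.neg_val, if_neg hm]
      have := ZMod.val_lt (l m)
      omega
    obtain ⟨x₀, hx₀⟩ : ∃ x₀ : ℂ, x₀ = -p / a := ⟨_, rfl⟩
    have hpx : p + a * x₀ = 0 := by
      rw [hx₀]
      field_simp
      ring
    have hρ : 0 < ‖x₀‖ + 1 := by positivity
    have hxρ : x₀ ∈ ball (0 : ℂ) (‖x₀‖ + 1) := by
      rw [mem_ball_zero_iff]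
      linarith
    have hjl : ∀ᶠ m in UF, (l m).val ≤ (D m).k := Eventually.of_forall fun m => hle m (l m)
    have Ty : Tendsto (fun m => (D m).F (l m).val x₀) UF (𝓝 0) := by
      refine GAL_tend fun ε hε => ?_
      filter_upwards [GAL_unif hL hF hjl T1 T2 hρ hε] with m hm
      have h1 := (hm x₀ hxρ).1
      rwa [hpx] at h1
    have Td : Tendsto (fun m => deriv ((D m).F (l m).val) x₀) UF (𝓝 a) := by
      refine GAL_tend fun ε hε => ?_
      filter_upwards [GAL_unif hL hF hjl T1 T2 hρ hε] with m hm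
      exact (hm x₀ hxρ).2
    have Tk : Tendsto (fun m => (D m).F (D m).k x₀) UF (𝓝 x₀) := by
      refine GAL_tend fun ε hε => ?_
      filter_upwards [(hGFK n C C' C'' D hD hL _ hρ).2 ε hε] with m hm
      exact (hm x₀ hxρ).1
    have Tdk : Tendsto (fun m => deriv ((D m).F (D m).k) x₀) UF (𝓝 1) := by
      refine GAL_tend fun ε hε => ?_
      filter_upwards [(hGFK n C C' C'' D hD hL _ hρ).2 ε hε] with m hm
      exact (hm x₀ hxρ).2
    have Te : Tendsto (fun m => deriv ((D m).F (-(l m)).val) ((D m).F (l m).val x₀)) UF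
        (𝓝 (1 / a)) := by
      refine Tendsto.congr' ?_ (Tdk.div Td ha0)
      filter_upwards [hsum, Td.eventually_ne ha0] with m h1 h2
      have h3 := hchain m (-(l m)).val (l m).val x₀
      rw [h1] at h3
      rw [Pi.div_apply, h3, mul_div_assoc, div_self h2, mul_one]
    have hy1 : ∀ᶠ m in UF, (D m).F (l m).val x₀ ∈ ball (0 : ℂ) 1 :=
      Ty.eventually (ball_mem_nhds (0 : ℂ) one_pos)
    have hM : 0 < ‖1 / a‖ + 1 := by positivity
    have TA : Tendsto (fun m => (D m).A (-(l m)).val) UF (𝓝 (1 / a)) := by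
      refine GAL_tend fun ε hε => ?_
      have he : 0 < min (1 / 2) (ε / (4 * (‖1 / a‖ + 1))) := lt_min (by norm_num) (by positivity)
      filter_upwards [GAL_bd Te, GAL_ev Te (half_pos hε), hy1, hL.aff 1 one_pos _ he] with
        m h1 h2 h3 h4
      have h5 := h4 (-(l m)).val (hle m _) _ h3
      have h6 := norm_sub_norm_le ((D m).A (-(l m)).val)
        (deriv ((D m).F (-(l m)).val) ((D m).F (l m).val x₀))
      rw [norm_sub_rev] at h6
      have h7 : min (1 / 2) (ε / (4 * (‖1 / a‖ + 1))) * ‖(D m).A (-(l m)).val‖ ≤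
          1 / 2 * ‖(D m).A (-(l m)).val‖ :=
        mul_le_mul_of_nonneg_right (min_le_left _ _) (norm_nonneg _)
      have h8 : ‖(D m).A (-(l m)).val‖ ≤ 2 * (‖1 / a‖ + 1) := by linarith
      have h9 : min (1 / 2) (ε / (4 * (‖1 / a‖ + 1))) * ‖(D m).A (-(l m)).val‖ ≤ ε / 2 := by
        calc min (1 / 2) (ε / (4 * (‖1 / a‖ + 1))) * ‖(D m).A (-(l m)).val‖
            ≤ (ε / (4 * (‖1 / a‖ + 1))) * (2 * (‖1 / a‖ + 1)) :=
              mul_le_mul (min_le_right _ _) h8 (norm_nonneg _) (by positivity)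
          _ = ε / 2 := by
            field_simp
            ring
      have h10 : (D m).A (-(l m)).val - 1 / a =
          (deriv ((D m).F (-(l m)).val) ((D m).F (l m).val x₀) - 1 / a) -
          (deriv ((D m).F (-(l m)).val) ((D m).F (l m).val x₀) - (D m).A (-(l m)).val) := by ring
      rw [h10]
      have h11 := norm_sub_le (deriv ((D m).F (-(l m)).val) ((D m).F (l m).val x₀) - 1 / a)
        (deriv ((D m).F (-(l m)).val) ((D m).F (l m).val x₀) - (D m).A (-(l m)).val)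
      linarith
    refine ⟨a, hale, T2, ?_, TA⟩
    show Tendsto (fun m => (D m).p (-(l m))) UF (𝓝 (-p / a))
    rw [← hx₀]
    have Tz : Tendsto (fun m => (D m).p (-(l m)) - (D m).F (D m).k x₀) UF (𝓝 0) := by
      have hg : Tendsto (fun m => (2 * (‖1 / a‖ + 1)) * ‖(D m).F (l m).val x₀‖) UF (𝓝 0) := by
        have := (Ty.norm).const_mul (2 * (‖1 / a‖ + 1))
        rwa [norm_zero, mul_zero] at this
      refine squeeze_zero_norm' ?_ hg
      filter_upwards [hsum, hy1, hL.aff 1 one_pos 1 one_pos, GAL_bd TA] with m h1 h2 h3 h4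
      have h5 : ∀ y ∈ ball (0 : ℂ) 1, ‖deriv ((D m).F (-(l m)).val) y - (D m).A (-(l m)).val‖ ≤
          ‖(D m).A (-(l m)).val‖ := by
        intro y hy
        have := h3 (-(l m)).val (hle m _) y hy
        rwa [one_mul] at this
      have h6 := GAL_mv (hF m _) h5 h2 (mem_ball_self one_pos)
      rw [sub_zero, hval m (-(l m)), ← hcomp m, h1] at h6
      have h7 : (D m).p (-(l m)) - (D m).F (D m).k x₀ = -(((D m).F (D m).k x₀ -
          (D m).p (-(l m)) - (D m).A (-(l m)).val * (D m).F (l m).val x₀) +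
          (D m).A (-(l m)).val * (D m).F (l m).val x₀) := by ring
      rw [h7, norm_neg]
      have h8 := norm_add_le ((D m).F (D m).k x₀ -
          (D m).p (-(l m)) - (D m).A (-(l m)).val * (D m).F (l m).val x₀)
          ((D m).A (-(l m)).val * (D m).F (l m).val x₀)
      rw [norm_mul] at h8
      have h9 : ‖(D m).A (-(l m)).val‖ * ‖(D m).F (l m).val x₀‖ ≤
          (‖1 / a‖ + 1) * ‖(D m).F (l m).val x₀‖ :=
        mul_le_mul_of_nonneg_right h4 (norm_nonneg _)
      linarith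
    have h2 := Tz.add Tk
    rw [zero_add] at h2
    refine h2.congr fun m => ?_
    ring

theorem GAL (hGBA : GBA_stmt) (hGLB : GLB_stmt) (hGFK : GFK_stmt) (hTUL : V3.TUL_stmt) :
    GAL_stmt := by
  intro n C C' C'' D hD hL
  obtain ⟨hex, hmem, -, huniq, hzero, -, -⟩ := hGLB n C C' C'' D hD hL
  have key : ∀ p, p ∈ Pin D → ∃ a : ℂ, 1 / C ≤ ‖a‖ ∧ ∀ l : ∀ m, ZMod (D m).k, LabTo D l p →
      Tendsto (fun m => (D m).A (l m).val) UF (𝓝 a) ∧ LabTo D (fun m => -(l m)) (-p / a) ∧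
      Tendsto (fun m => (D m).A (-(l m)).val) UF (𝓝 (1 / a)) := by
    intro p hp
    obtain ⟨l₀, hl₀⟩ := hex p hp
    obtain ⟨a, ha1, h2, h3, h4⟩ := GAL_core hD hL hGBA hGFK hTUL hl₀
    refine ⟨a, ha1, ?_⟩
    intro l hl
    have heq : ∀ᶠ m in UF, l₀ m = l m := huniq l₀ l p hl₀ hl
    refine ⟨h2.congr' ?_, ?_, h4.congr' ?_⟩
    · filter_upwards [heq] with m hm
      rw [hm]
    · have h5 : Tendsto (fun m => (D m).p (-(l₀ m))) UF (𝓝 (-p / a)) := h3
      have h6 : Tendsto (fun m => (D m).p (-(l m))) UF (𝓝 (-p / a)) := by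
        refine h5.congr' ?_
        filter_upwards [heq] with m hm
        rw [hm]
      exact h6
    · filter_upwards [heq] with m hm
      rw [hm]
  choose! A hA1 hA2 using key
  have hGBA' := fun m => hGBA n C (D m) (hD.ok m)
  have hF : ∀ m j, Differentiable ℂ ((D m).F j) := by
    intro m j
    obtain ⟨Q, hQ⟩ := (hGBA' m).2.2.2.2.2.2.2.1 j
    have h1 : (D m).F j = fun x => Q.eval x := funext hQ
    rw [h1]
    exact Q.differentiable
  refine ⟨A, ?_, hA1, ?_, ?_, ?_, ?_⟩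
  · have h1 := (hA2 0 hL.P0 (fun _ => 0) hzero).1
    have h2 : Tendsto (fun m => (D m).A ((0 : ZMod (D m).k)).val) UF (𝓝 1) := by
      refine Tendsto.congr (fun m => ?_) (tendsto_const_nhds (x := (1 : ℂ)))
      rw [ZMod.val_zero]
      exact ((hGBA' m).2.2.2.2.2.2.2.2.2.2.2.2.2.1).symm
    exact tendsto_nhds_unique h1 h2
  · intro p hp
    obtain ⟨l, hl⟩ := hex p hp
    obtain ⟨-, h2, h3⟩ := hA2 p hp l hl
    have h4 : -p / A p ∈ Pin D := hmem _ _ h2
    refine ⟨h4, ?_⟩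
    exact tendsto_nhds_unique (hA2 _ h4 _ h2).1 h3
  · intro p hp l hl
    exact (hA2 p hp l hl).1
  · intro p hp l hl
    exact (hA2 p hp l hl).2.1
  · intro p hp l hl ρ hρ ε hε
    have T1 : Tendsto (fun m => (D m).F (l m).val 0) UF (𝓝 p) := by
      have h1 : (fun m => (D m).F (l m).val 0) = fun m => (D m).p (l m) := by
        funext m
        have h2 := (hGBA' m).2.2.2.2.2.1 (l m).val 0
        rw [(hGBA' m).2.2.2.2.2.2.1, zero_add, ZMod.natCast_zmod_val] at h2
        exact h2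
      rw [h1]
      exact hl
    exact GAL_unif hL hF (Eventually.of_forall fun m => (ZMod.val_lt (l m)).le) T1
      (hA2 p hp l hl).1 hρ hε

end XPG
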