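import Pool.Agent.helper54.XP.SpecG

set_option autoImplicit false

open Complex Metric Set Filter Topology MeasureTheory XP
open V3S (UF)

noncomputable section

namespace XPG

/-- convergence of second derivatives along moving points. -/
theorem GQE_conv (V : ℕ → ℂ → ℂ) (v : ℂ → ℂ) (x : ℕ → ℂ) (p : ℂ)
    (hV : ∀ m, Differentiable ℂ (V m)) (hv : Differentiable ℂ v)
    (hc : ∀ K : Set ℂ, IsCompact K → TendstoUniformlyOn V v UF K)
    (hx : Tendsto x UF (𝓝 p)) :
    Tendsto (fun m => deriv (deriv (V m)) (x m)) UF (𝓝 (deriv (deriv v) p)) := by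
  have h0 : TendstoLocallyUniformlyOn V v UF univ := by
    rw [tendstoLocallyUniformlyOn_iff_forall_isCompact isOpen_univ]
    intro K _ hK
    exact hc K hK
  have h1 := h0.deriv (Eventually.of_forall fun m => (hV m).differentiableOn) isOpen_univ
  have hV1 : ∀ m, Differentiable ℂ (deriv (V m)) := fun m =>
    differentiableOn_univ.1 ((hV m).differentiableOn.deriv isOpen_univ)
  have h2 := h1.deriv (Eventually.of_forall fun m => (hV1 m).differentiableOn) isOpen_univ
  have hv1 : Differentiable ℂ (deriv v) :=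
    differentiableOn_univ.1 (hv.differentiableOn.deriv isOpen_univ)
  have hv2 : Differentiable ℂ (deriv (deriv v)) :=
    differentiableOn_univ.1 (hv1.differentiableOn.deriv isOpen_univ)
  have hx' : Tendsto x UF (𝓝[univ] p) := by rwa [nhdsWithin_univ]
  exact h2.tendsto_comp hv2.continuous.continuousWithinAt (mem_univ p) hx'

/-- the limit of `(exp z - 1)/z`. -/
theorem GQE_exp : Tendsto (fun z : ℂ => (Complex.exp z - 1) / z) (𝓝[≠] 0) (𝓝 1) := by
  have h1 : HasDerivAt Complex.exp 1 0 := by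
    have := Complex.hasDerivAt_exp 0
    rwa [Complex.exp_zero] at this
  have h2 := h1.tendsto_slope
  refine h2.congr' ?_
  filter_upwards [self_mem_nhdsWithin] with z hz
  rw [slope_def_field, Complex.exp_zero, sub_zero]

/-- local analysis at a pole. -/
theorem GQE_local (v B h : ℂ → ℂ) (p g : ℂ) (hv : Differentiable ℂ v) (hv0 : v p = 0)
    (hv1 : deriv v p = 1) (hv2 : deriv (deriv v) p = -g) (hh : AnalyticAt ℂ h p)
    (hB : ∀ᶠ x in 𝓝[≠] p, B x = 1 / (x - p) ^ 2 + g / (x - p) + h x) :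
    ∃ H : ℂ → ℂ, AnalyticAt ℂ H p ∧
      ∀ᶠ x in 𝓝[≠] p, v x * deriv B x + 2 * deriv v x * B x = H x := by
  have hw : Differentiable ℂ (dslope v p) := by
    rw [← differentiableOn_univ]
    exact (Complex.differentiableOn_dslope univ_mem).2 hv.differentiableOn
  set w : ℂ → ℂ := dslope v p with hwdef
  have hvw : ∀ x, v x = (x - p) * w x := by
    intro x
    have := sub_smul_dslope v p x
    rw [smul_eq_mul, hv0, sub_zero] at this
    rw [← this]
  have hdw : Differentiable ℂ (deriv w) :=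
    differentiableOn_univ.1 (hw.differentiableOn.deriv isOpen_univ)
  have hdv : ∀ x, deriv v x = w x + (x - p) * deriv w x := by
    intro x
    have h1 : HasDerivAt (fun y => (y - p) * w y) (1 * w x + (x - p) * deriv w x) x :=
      ((hasDerivAt_id x).sub_const p).mul (hw x).hasDerivAt
    have h2 : v = fun y => (y - p) * w y := funext hvw
    rw [h2, h1.deriv, one_mul]
  have hddv : deriv (deriv v) p = 2 * deriv w p := by
    have h1 : HasDerivAt (fun y => w y + (y - p) * deriv w y)
        (deriv w p + (1 * deriv w p + (p - p) * deriv (deriv w) p)) p :=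
      (hw p).hasDerivAt.add (((hasDerivAt_id p).sub_const p).mul (hdw p).hasDerivAt)
    have h2 : deriv v = fun y => w y + (y - p) * deriv w y := funext hdv
    rw [h2, h1.deriv]
    ring
  have hwp : w p = 1 := by
    rw [hwdef, dslope_same, hv1]
  set h1 : ℂ → ℂ := fun y => g * w y + 2 * deriv w y with hh1
  have hd1 : Differentiable ℂ h1 := (hw.const_mul g).add (hdw.const_mul 2)
  have h1p : h1 p = 0 := by
    rw [hh1]
    simp only
    rw [hwp, ← hddv, hv2]
    ring
  have hs1 : Differentiable ℂ (dslope h1 p) := by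
    rw [← differentiableOn_univ]
    exact (Complex.differentiableOn_dslope univ_mem).2 hd1.differentiableOn
  have hs2 : ∀ x, h1 x = (x - p) * dslope h1 p x := by
    intro x
    have := sub_smul_dslope h1 p x
    rw [smul_eq_mul, h1p, sub_zero] at this
    rw [← this]
  refine ⟨fun x => dslope h1 p x + (x - p) * w x * deriv h x + 2 * w x * h x +
    2 * g * deriv w x + 2 * (x - p) * deriv w x * h x, ?_, ?_⟩
  · have a1 : AnalyticAt ℂ (dslope h1 p) p := hs1.analyticAt p
    have a2 : AnalyticAt ℂ w p := hw.analyticAt p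
    have a3 : AnalyticAt ℂ (deriv w) p := hdw.analyticAt p
    have a4 : AnalyticAt ℂ (deriv h) p := hh.deriv
    have a5 : AnalyticAt ℂ (fun x : ℂ => x - p) p := analyticAt_id.sub analyticAt_const
    exact ((((a1.add ((a5.mul a2).mul a4)).add ((analyticAt_const.mul a2).mul hh)).add
      (analyticAt_const.mul a3)).add (((analyticAt_const.mul a5).mul a3).mul hh))
  · have e1 := eventually_eventually_nhdsWithin.2 hB
    have e2 : ∀ᶠ x in 𝓝[≠] p, AnalyticAt ℂ h x :=
      hh.eventually_analyticAt.filter_mono nhdsWithin_le_nhds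
    filter_upwards [hB, e1, e2, self_mem_nhdsWithin] with x hx1 hx2 hx3 hx4
    have hxp : x ≠ p := hx4
    have hs : x - p ≠ 0 := sub_ne_zero.2 hxp
    have hnb : 𝓝[≠] x ≤ 𝓝 x := nhdsWithin_le_nhds
    have hx2' : ∀ᶠ y in 𝓝 x, B y = 1 / (y - p) ^ 2 + g / (y - p) + h y := by
      have : 𝓝[{p}ᶜ] x = 𝓝 x := isOpen_compl_singleton.nhdsWithin_eq hxp
      rwa [this] at hx2
    have hdB : deriv B x = -2 / (x - p) ^ 3 + -g / (x - p) ^ 2 + deriv h x := by
      have d0 : HasDerivAt (fun y : ℂ => y - p) 1 x := (hasDerivAt_id x).sub_const p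
      have d1 : HasDerivAt (fun y : ℂ => 1 / (y - p) ^ 2)
          ((0 * (x - p) ^ 2 - 1 * ((2 : ℕ) * (x - p) ^ (2 - 1) * 1)) / ((x - p) ^ 2) ^ 2) x :=
        (hasDerivAt_const x (1 : ℂ)).div (d0.pow 2) (pow_ne_zero 2 hs)
      have d2 : HasDerivAt (fun y : ℂ => g / (y - p))
          ((0 * (x - p) - g * 1) / (x - p) ^ 2) x :=
        (hasDerivAt_const x g).div d0 hs
      have d3 : HasDerivAt h (deriv h x) x := hx3.differentiableAt.hasDerivAt
      have d4 := (d1.add d2).add d3
      have d5 : deriv B x = _ := (Filter.EventuallyEq.deriv_eq hx2').trans d4.deriv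
      rw [d5]
      field_simp
      ring
    rw [hdB, hx1, hvw x, hdv x]
    have h5 := hs2 x
    have h6 : dslope h1 p x = (g * w x + 2 * deriv w x) / (x - p) := by
      rw [eq_div_iff hs, mul_comm, ← h5]
    rw [h6]
    field_simp
    ring

theorem GQE_dd (hGBA : GBA_stmt) (hGLB : GLB_stmt) (hGEX : GEX_stmt) (n : ℕ) (C C' C'' : ℝ)
    (D : ℕ → Dat) (g : ℂ → ℂ) (hS : HG n C C' C'' D) (hL : LA C D) (hg : GG D g)
    (p : ℂ) (hp : p ∈ Pin D) : deriv (deriv (vin D)) p = -g p := by
  obtain ⟨hlab, -⟩ := hGLB n C C' C'' D hS hL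
  obtain ⟨l, hl⟩ := hlab p hp
  have hV : ∀ m, Differentiable ℂ ((D m).v) := by
    intro m
    obtain ⟨-, -, -, -, -, -, -, -, ⟨Q, hQ⟩, -⟩ := hGBA n C (D m) (hS.ok m)
    have : (D m).v = fun x => Q.eval x := funext hQ
    rw [this]
    exact Q.differentiable
  have h1 := GQE_conv (fun m => (D m).v) (vin D) (fun m => (D m).p (l m)) p hV hL.vdiff hL.vconv hl
  have h2 : ∀ m, deriv (deriv (D m).v) ((D m).p (l m)) =
      -(Complex.exp (D m).lam * ((Complex.exp (D m).lam - 1) / (D m).lam)) *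
        ((D m).sg * (D m).g (l m)) := fun m => hGEX n C (D m) (hS.ok m) (l m)
  have hlam : Tendsto (fun m => (D m).lam) UF (𝓝 0) := hL.lam
  have hlam' : Tendsto (fun m => (D m).lam) UF (𝓝[≠] 0) := by
    refine tendsto_nhdsWithin_iff.2 ⟨hlam, Eventually.of_forall fun m => ?_⟩
    obtain ⟨-, -, -, -, -, -, -, -, -, -, -, h0, -⟩ := hGBA n C (D m) (hS.ok m)
    exact h0
  have h3 : Tendsto (fun m => (Complex.exp (D m).lam - 1) / (D m).lam) UF (𝓝 1) :=
    GQE_exp.comp hlam'
  have h4 : Tendsto (fun m => Complex.exp (D m).lam) UF (𝓝 1) := by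
    have := (Complex.continuous_exp.tendsto 0).comp hlam
    rwa [Complex.exp_zero] at this
  have h5 := hg.lim p hp l hl
  have h6 := ((h4.mul h3).neg).mul h5
  have h7 : Tendsto (fun m => deriv (deriv (D m).v) ((D m).p (l m))) UF (𝓝 (-(1 * 1) * g p)) := by
    refine h6.congr fun m => ?_
    rw [h2 m]
  have h8 := tendsto_nhds_unique h1 h7
  rw [h8]
  ring

theorem GQE (hGBA : GBA_stmt) (hGLB : GLB_stmt) (hGEX : GEX_stmt) (hREMO : V3.REMO_stmt)
    (hPCO : V3.PCO_stmt) : GQE_stmt := by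
  intro n C C' C'' D g hS hL hg
  obtain ⟨-, -, -, -, -, hsep, -⟩ := hGLB n C C' C'' D hS hL
  obtain ⟨hcl, -, -⟩ := hPCO (Pin D) 1 one_pos hsep
  have hop : IsOpen (Pin D)ᶜ := hcl.isOpen_compl
  have hdv : Differentiable ℂ (deriv (vin D)) :=
    differentiableOn_univ.1 (hL.vdiff.differentiableOn.deriv isOpen_univ)
  refine hREMO (fun x => vin D x * deriv (Bin D) x + 2 * deriv (vin D) x * Bin D x) (Pin D) 1
    one_pos hsep ?_ ?_
  · exact (hL.vdiff.differentiableOn.mul (hL.Bdiff.deriv hop)).add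
      ((hdv.const_mul 2).differentiableOn.mul hL.Bdiff)
  · intro p hp
    obtain ⟨h, hh, hB⟩ := hg.pp p hp
    obtain ⟨hv0, hv1⟩ := hL.vzero p hp
    exact GQE_local (vin D) (Bin D) h p (g p) hL.vdiff hv0 hv1
      (GQE_dd hGBA hGLB hGEX n C C' C'' D g hS hL hg p hp) hh hB

end XPG
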