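import Pool.Agent.helper74.XP.SpecQ

/-!
# xp: module XLG (the finiteness theorem in terms of the error term)
-/

set_option autoImplicit false

open Complex Metric Set Filter Topology MeasureTheory MPS PPS Pool.Agent.helper98.ILF

noncomputable section

namespace XPP

theorem XLG (hF : FIN_stmt) (hP : PPS.PRB_stmt) (hV : PPS.ERV_stmt) (hE : XLE_stmt)
    (hT : XLT_stmt) : XLG_stmt := by
  intro n hn
  obtain ⟨ε, hε, hfin⟩ := hF n hn
  refine ⟨ε, hε, fun f R K δ hf hR hδ hK => ?_⟩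
  have hPf := hP f (by omega)
  have hCVf : (CV f).Finite := hPf.2.2.2.2.1
  have hCVn : (CV f).ncard ≤ f.natDegree - 1 := hPf.2.2.2.2.2
  set V : Finset ℂ := hCVf.toFinset with hVd
  have hmem : ∀ v, v ∈ V ↔ v ∈ CV f := fun v => hCVf.mem_toFinset
  have hcard : V.card ≤ n := by
    have h1 : (CV f).ncard = V.card := Set.ncard_eq_toFinset_card (CV f) hCVf
    omega
  have hs0 : ∀ O : CY f, ∃ s : ℂ → ℂ, ∀ᵐ z : ℂ, PPS.er f O.b O.g z = ∑ v ∈ V, s v / (z - v) :=
    fun O => hV O.k f O.b O.g V (by omega) O.cyc O.ex hmem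
  choose s hs using hs0
  obtain ⟨C, hC, hCe⟩ := hE V R (fun v hv => hR v ((hmem v).1 hv))
  have henum : ∃ vm : ℕ → ℂ, (∀ m, m < V.card → vm m ∈ V) ∧ ∀ v ∈ V, ∃ m, m < V.card ∧ vm m = v := by
    refine ⟨fun m => if h : m < V.card then (V.equivFin.symm ⟨m, h⟩ : ℂ) else 0, ?_, ?_⟩
    · intro m h
      simp only [dif_pos h]
      exact (V.equivFin.symm ⟨m, h⟩).2
    · intro v hv
      refine ⟨V.equivFin ⟨v, hv⟩, (V.equivFin ⟨v, hv⟩).2, ?_⟩
      simp only [dif_pos (V.equivFin ⟨v, hv⟩).2]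
      simp
  obtain ⟨vm, hvm, hvm'⟩ := henum
  refine hfin f V.card (fun O m => s O (vm m)) (C * |K|) δ hf hcard hδ ?_ ?_
  · intro O hO hL
    obtain ⟨h1, h2⟩ := hK O hO hL
    refine ⟨h1, fun m hm => ?_⟩
    have hLpos : 0 < O.L := Real.log_pos O.rep
    have h3 := hCe (s O) (vm m) (hvm m hm)
    have h4 : ∫ z in ball (0 : ℂ) R, ‖∑ w ∈ V, s O w / (z - w)‖ =
        ∫ z in ball (0 : ℂ) R, ‖PPS.er f O.b O.g z‖ := by
      refine integral_congr_ae (ae_restrict_of_ae ?_)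
      filter_upwards [hs O] with z hz
      rw [hz]
    rw [h4] at h3
    have h5 : ∫ z in ball (0 : ℂ) R, ‖PPS.er f O.b O.g z‖ ≤ |K| := by
      calc _ ≤ K * O.L := h2
        _ ≤ |K| * O.L := mul_le_mul_of_nonneg_right (le_abs_self K) hLpos.le
        _ ≤ |K| * 1 := mul_le_mul_of_nonneg_left hL (abs_nonneg K)
        _ = |K| := mul_one _
    exact h3.trans (mul_le_mul_of_nonneg_left h5 hC.le)
  · intro O J D a ha
    refine hT f V O J D a (s O) (fun j => s (D j)) (hs O) (fun j _ => hs (D j)) ?_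
    intro v hv
    obtain ⟨m, hm, rfl⟩ := hvm' v hv
    exact ha m hm

end XPP
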